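import Pool.Agent.Helper45.FG.St

/-!
Project FG (MP_7221b2_al, owner helper45), module ADM: candidates near an extreme ray.
-/

set_option autoImplicit false

namespace Pool.Agent.Helper72.FG

open Pool.Agent.Helper45.FG

private lemma exists_ne_one (K : IntermediateField ℚ ℝ) [FiniteDimensional ℚ K] [IsGalois ℚ K]
    (hn : 3 ≤ Module.finrank ℚ K) : ∃ t : K ≃ₐ[ℚ] K, t ≠ 1 := by
  by_contra hcon
  push Not at hcon
  have h1 : Nat.card (K ≃ₐ[ℚ] K) = Module.finrank ℚ K := IsGalois.card_aut_eq_finrank ℚ K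
  have h2 : Nat.card (K ≃ₐ[ℚ] K) = 1 := by
    rw [Nat.card_eq_one_iff_unique]
    exact ⟨⟨fun a b => by rw [hcon a, hcon b]⟩, ⟨1⟩⟩
  omega

private lemma pow_aux (k : ℕ) (a b B C : ℝ) (ha : 0 ≤ a) (hb : 0 ≤ b) (hB : 0 ≤ B)
    (hau : a ^ k * B ≤ C) (hbu : b ^ k * B ≤ C) : (a + b) ^ k * B ≤ 2 ^ k * C := by
  have hm : (max a b) ^ k * B ≤ C := by
    rcases le_total a b with h | h
    · rw [max_eq_right h]; exact hbu
    · rw [max_eq_left h]; exact hau
  have h1 : a + b ≤ 2 * max a b := by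
    have h2 := le_max_left a b
    have h3 := le_max_right a b
    linarith
  have h2 : (a + b) ^ k ≤ (2 * max a b) ^ k := pow_le_pow_left₀ (by linarith) h1 k
  calc (a + b) ^ k * B ≤ (2 * max a b) ^ k * B := mul_le_mul_of_nonneg_right h2 hB
    _ = 2 ^ k * ((max a b) ^ k * B) := by rw [mul_pow]; ring
    _ ≤ 2 ^ k * C := mul_le_mul_of_nonneg_left hm (by positivity)

theorem hADM (hDIR : StDIR) : StADM := by
  intro K hK hG hn
  have := hK
  have := hG
  obtain ⟨t1, ht1⟩ := exists_ne_one K hn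
  obtain ⟨C, hC1, hC⟩ := hDIR K hK hG hn t1 ht1
  set k := Module.finrank ℚ K - 2 with hk
  have h2k : (1 : ℝ) ≤ 2 ^ k := one_le_pow₀ (by norm_num)
  refine ⟨2 ^ k * C, by nlinarith, ?_⟩
  intro B hB
  have hCB : C ≤ B := by nlinarith
  have hB1 : 1 ≤ B := by linarith
  -- choose z with t1 z ≤ z
  have hz : ∃ z : K, IsIntegral ℤ z ∧ (∃ t : K ≃ₐ[ℚ] K, t z ≠ z) ∧
      (∀ t : K ≃ₐ[ℚ] K, |(z : ℝ) - ((t z : K) : ℝ)| ≤ B) ∧
      (∀ t : K ≃ₐ[ℚ] K, t ≠ t1 → |(z : ℝ) - ((t z : K) : ℝ)| ^ k * B ≤ C) ∧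
      ((t1 z : K) : ℝ) ≤ (z : ℝ) := by
    obtain ⟨z, hz1, hz2, hz3, hz4⟩ := hC B hCB
    rcases le_total ((t1 z : K) : ℝ) (z : ℝ) with h | h
    · exact ⟨z, hz1, hz2, hz3, hz4, h⟩
    · have e : ∀ t : K ≃ₐ[ℚ] K, ((-z : K) : ℝ) - ((t (-z) : K) : ℝ)
          = -((z : ℝ) - ((t z : K) : ℝ)) := by
        intro t
        rw [map_neg]
        push_cast
        ring
      refine ⟨-z, hz1.neg, ?_, ?_, ?_, ?_⟩
      · obtain ⟨t, ht⟩ := hz2
        refine ⟨t, fun hh => ht ?_⟩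
        rw [map_neg] at hh
        exact neg_injective hh
      · intro t
        rw [e t, abs_neg]
        exact hz3 t
      · intro t ht
        rw [e t, abs_neg]
        exact hz4 t ht
      · rw [map_neg]
        push_cast
        linarith
  obtain ⟨z, hzi, ⟨s, hs⟩, hzB, hzs, hz1⟩ := hz
  -- maximal conjugate outside t1
  classical
  obtain ⟨r, hrS, hrmax⟩ := Finset.exists_max_image
    (Finset.univ.filter fun t : K ≃ₐ[ℚ] K => t ≠ t1)
    (fun t => ((t z : K) : ℝ)) ⟨1, by simp [Ne.symm ht1]⟩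
  have hr1 : r ≠ t1 := by simpa using hrS
  have hrz : (z : ℝ) ≤ ((r z : K) : ℝ) := by
    have := hrmax 1 (by simp [Ne.symm ht1])
    simpa using this
  have hall : ∀ t : K ≃ₐ[ℚ] K, ((t z : K) : ℝ) ≤ ((r z : K) : ℝ) := by
    intro t
    by_cases ht : t = t1
    · rw [ht]; linarith
    · exact hrmax t (by simp [ht])
  set m : ℤ := ⌈B - ((r z : K) : ℝ)⌉ with hm
  have hm1 : B - ((r z : K) : ℝ) ≤ (m : ℝ) := Int.le_ceil _
  have hm2 : (m : ℝ) < B - ((r z : K) : ℝ) + 1 := Int.ceil_lt_add_one _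
  set β : K := r z + (m : K) with hβ
  have hβr : (β : ℝ) = ((r z : K) : ℝ) + (m : ℝ) := by
    rw [hβ]; push_cast; ring
  have htβ : ∀ t : K ≃ₐ[ℚ] K, ((t β : K) : ℝ) = (((t * r) z : K) : ℝ) + (m : ℝ) := by
    intro t
    rw [hβ, map_add, map_intCast]
    push_cast
    rfl
  have hdiff : ∀ t : K ≃ₐ[ℚ] K, (β : ℝ) - ((t β : K) : ℝ)
      = ((r z : K) : ℝ) - (((t * r) z : K) : ℝ) := by
    intro t
    rw [hβr, htβ t]; ring
  have hBβ : B ≤ (β : ℝ) := by rw [hβr]; linarith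
  refine ⟨β, ⟨?_, ?_, ?_⟩, hBβ, ?_, ?_, t1 * r⁻¹, ?_, ?_⟩
  · exact (map_isIntegral_int r hzi).add (isIntegral_intCast m)
  · linarith
  · intro t
    have h1 := hdiff t
    have h2 := hall (t * r)
    have h3 := hzB r
    have h4 := hzB (t * r)
    rw [abs_le] at h3 h4
    rw [abs_le]
    constructor
    · linarith [h3.1, h4.2]
    · linarith
  · rw [hβr]; linarith
  · refine ⟨r * s * r⁻¹, fun hh => hs ?_⟩
    have h1 : (r * s * r⁻¹) β = r (s z) + (m : K) := by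
      rw [hβ, map_add, map_intCast]
      congr 1
      show r (s (r⁻¹ (r z))) = r (s z)
      congr 2
      show (r⁻¹ * r) z = z
      rw [inv_mul_cancel]
      rfl
    rw [h1, hβ] at hh
    exact r.injective (add_right_cancel hh)
  · intro hh
    apply hr1
    have : t1 = 1 * r := by rw [← hh, inv_mul_cancel_right]
    rw [this, one_mul]
  · intro t ht
    have htr : t * r ≠ t1 := by
      intro hh
      apply ht
      rw [← hh, mul_inv_cancel_right]
    have h1 := hdiff t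
    have h2 := hall (t * r)
    have h5 : 0 ≤ (β : ℝ) - ((t β : K) : ℝ) := by rw [h1]; linarith
    have h6 : (β : ℝ) - ((t β : K) : ℝ)
        ≤ |(z : ℝ) - ((r z : K) : ℝ)| + |(z : ℝ) - (((t * r) z : K) : ℝ)| := by
      rw [h1]
      have h7 := neg_abs_le ((z : ℝ) - ((r z : K) : ℝ))
      have h8 := le_abs_self ((z : ℝ) - (((t * r) z : K) : ℝ))
      linarith
    calc ((β : ℝ) - ((t β : K) : ℝ)) ^ k * B
        ≤ (|(z : ℝ) - ((r z : K) : ℝ)| + |(z : ℝ) - (((t * r) z : K) : ℝ)|) ^ k * B :=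
          mul_le_mul_of_nonneg_right (pow_le_pow_left₀ h5 h6 k) (by linarith)
      _ ≤ 2 ^ k * C := pow_aux k _ _ B C (abs_nonneg _) (abs_nonneg _) (by linarith)
          (hzs r hr1) (hzs (t * r) htr)

end Pool.Agent.Helper72.FG
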